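import Pool.Agent.Lib.MP_6bc78b_nt.MS.QZ.Iface
import Pool.Agent.Lib.MP_6bc78b_nt.MS.L.H61.Mer

/-! Module LZP of board qz_modules: prime sums against `log |ζ|` to the right of `1`. -/

set_option autoImplicit false

open Complex Filter Topology MeasureTheory ArithmeticFunction

namespace Pool.Agent.Lib.MP_6bc78b_nt.MS.QZ.H57

open Pool.Agent.Lib.MP_6bc78b_nt.MS Pool.Agent.Lib.MP_6bc78b_nt.MS.P1
open Pool.Agent.Lib.MP_6bc78b_nt.MS.L (w1 w2 MerStatement)

lemma w1_nonneg (n : ℕ) : 0 ≤ w1 n := div_nonneg vonMangoldt_nonneg (Nat.cast_nonneg n)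

lemma w1_prime {p : ℕ} (hp : p.Prime) : w1 p = Real.log p / p := by
  rw [w1, vonMangoldt_apply_prime hp]

/-- One block of primes. -/
lemma block_bound (C : ℝ) (_hC0 : 0 < C)
    (hC : ∀ x : ℝ, 1 ≤ x → |∑ n ∈ Finset.Icc 1 ⌊x⌋₊, w1 n - Real.log x| ≤ C)
    (y : ℝ) (hy : 2 ≤ y) (m : ℕ) (hm : 1 ≤ m) (F : Finset ℕ)
    (hF : ∀ p ∈ F, p.Prime ∧ (m : ℝ) * Real.log y ≤ Real.log p ∧
      Real.log p < ((m : ℝ) + 1) * Real.log y) :
    ∑ p ∈ F, (p : ℝ) ^ (-(1 + 1 / Real.log y)) ≤
      (1 + (2 * C + Real.log 2) / Real.log 2) * (1 / 2 : ℝ) ^ m := by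
  have hl2 : 0 < Real.log 2 := Real.log_pos (by norm_num)
  have hL2 : Real.log 2 ≤ Real.log y := Real.log_le_log (by norm_num) hy
  have hL : 0 < Real.log y := lt_of_lt_of_le hl2 hL2
  have hy0 : 0 < y := by linarith
  -- the sum of `w1`
  have h1 : ∑ p ∈ F, w1 p ≤ Real.log y + 2 * C + Real.log 2 := by
    have hA := hC (y ^ (m + 1)) (one_le_pow₀ (by linarith))
    have hym : (2 : ℝ) ≤ y ^ m := by
      calc (2 : ℝ) ≤ y := hy
        _ = y ^ 1 := (pow_one y).symm
        _ ≤ y ^ m := pow_le_pow_right₀ (by linarith) hm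
    have hB := hC (y ^ m / 2) (by linarith)
    rw [Real.log_pow] at hA
    rw [Real.log_div (by positivity) (by norm_num), Real.log_pow] at hB
    push_cast at hA
    have hle : y ^ m / 2 ≤ y ^ (m + 1) := by
      have h3 : y ^ m ≤ y ^ (m + 1) := pow_le_pow_right₀ (by linarith) (Nat.le_succ m)
      have h4 : 0 < y ^ m := by positivity
      linarith
    have hsub : Finset.Icc 1 ⌊y ^ m / 2⌋₊ ⊆ Finset.Icc 1 ⌊y ^ (m + 1)⌋₊ :=
      Finset.Icc_subset_Icc le_rfl (Nat.floor_le_floor hle)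
    have h2 : F ⊆ Finset.Icc 1 ⌊y ^ (m + 1)⌋₊ \ Finset.Icc 1 ⌊y ^ m / 2⌋₊ := by
      intro p hp
      obtain ⟨hpp, ha, hb⟩ := hF p hp
      have hp0 : (0 : ℝ) < p := by exact_mod_cast hpp.pos
      have hup : (p : ℝ) ≤ y ^ (m + 1) := by
        have h5 : Real.log p ≤ Real.log (y ^ (m + 1)) := by
          rw [Real.log_pow]; push_cast; linarith
        exact (Real.log_le_log_iff hp0 (by positivity)).1 h5
      have hlo : y ^ m ≤ (p : ℝ) := by
        have h5 : Real.log (y ^ m) ≤ Real.log p := by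
          rw [Real.log_pow]; exact ha
        exact (Real.log_le_log_iff (by positivity) hp0).1 h5
      rw [Finset.mem_sdiff, Finset.mem_Icc, Finset.mem_Icc]
      refine ⟨⟨hpp.one_lt.le, Nat.le_floor hup⟩, ?_⟩
      rintro ⟨-, h6⟩
      have h7 : (p : ℝ) ≤ y ^ m / 2 :=
        (Nat.cast_le.2 h6).trans (Nat.floor_le (by positivity))
      have h8 : 0 < y ^ m := by positivity
      linarith
    have h3 : ∑ p ∈ F, w1 p ≤
        ∑ p ∈ Finset.Icc 1 ⌊y ^ (m + 1)⌋₊ \ Finset.Icc 1 ⌊y ^ m / 2⌋₊, w1 p :=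
      Finset.sum_le_sum_of_subset_of_nonneg h2 (fun i _ _ => w1_nonneg i)
    have h4 := Finset.sum_sdiff (f := w1) hsub
    rw [abs_le] at hA hB
    nlinarith [hA.1, hA.2, hB.1, hB.2]
  -- termwise
  have h2 : ∀ p ∈ F, (p : ℝ) ^ (-(1 + 1 / Real.log y)) ≤
      w1 p / Real.log y * (1 / 2 : ℝ) ^ m := by
    intro p hp
    obtain ⟨hpp, ha, hb⟩ := hF p hp
    have hp0 : (0 : ℝ) < p := by exact_mod_cast hpp.pos
    have hm1 : (1 : ℝ) ≤ m := by exact_mod_cast hm
    have hlog : Real.log y ≤ Real.log p := by nlinarith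
    have e1 : (p : ℝ) ^ (-(1 + 1 / Real.log y)) =
        (p : ℝ)⁻¹ * Real.exp (-(Real.log p / Real.log y)) := by
      rw [neg_add, Real.rpow_add hp0, Real.rpow_neg_one, Real.rpow_def_of_pos hp0]
      congr 2
      ring
    have e2 : Real.exp (-(Real.log p / Real.log y)) ≤ (1 / 2 : ℝ) ^ m := by
      have h5 : (m : ℝ) ≤ Real.log p / Real.log y := by
        rw [le_div_iff₀ hL]; exact ha
      have h6 : Real.exp (-(1 : ℝ)) ≤ 1 / 2 := by
        rw [Real.exp_neg, one_div]
        apply inv_anti₀ (by norm_num)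
        have := Real.add_one_le_exp (1 : ℝ)
        linarith
      calc Real.exp (-(Real.log p / Real.log y)) ≤ Real.exp (-(m : ℝ)) :=
            Real.exp_le_exp.2 (by linarith)
        _ = Real.exp (-(1 : ℝ)) ^ m := by
            rw [← Real.exp_nat_mul]; congr 1; ring
        _ ≤ (1 / 2 : ℝ) ^ m := pow_le_pow_left₀ (Real.exp_pos _).le h6 m
    have e3 : (p : ℝ)⁻¹ ≤ w1 p / Real.log y := by
      rw [w1_prime hpp, le_div_iff₀ hL, div_eq_mul_inv, mul_comm]
      exact mul_le_mul_of_nonneg_right hlog (by positivity)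
    rw [e1]
    exact mul_le_mul e3 e2 (Real.exp_pos _).le (div_nonneg (w1_nonneg p) hL.le)
  calc ∑ p ∈ F, (p : ℝ) ^ (-(1 + 1 / Real.log y)) ≤
        ∑ p ∈ F, w1 p / Real.log y * (1 / 2 : ℝ) ^ m := Finset.sum_le_sum h2
    _ = (∑ p ∈ F, w1 p) / Real.log y * (1 / 2 : ℝ) ^ m := by
        rw [← Finset.sum_mul, Finset.sum_div]
    _ ≤ (1 + (2 * C + Real.log 2) / Real.log 2) * (1 / 2 : ℝ) ^ m := by
        apply mul_le_mul_of_nonneg_right _ (by positivity)
        calc (∑ p ∈ F, w1 p) / Real.log y ≤ (Real.log y + 2 * C + Real.log 2) / Real.log y := by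
              gcongr
          _ = 1 + (2 * C + Real.log 2) / Real.log y := by
              field_simp
              ring
          _ ≤ 1 + (2 * C + Real.log 2) / Real.log 2 := by
              have : 0 ≤ 2 * C + Real.log 2 := by positivity
              gcongr

/-- The tail of the prime sum. -/
lemma tail_bound (C : ℝ) (hC0 : 0 < C)
    (hC : ∀ x : ℝ, 1 ≤ x → |∑ n ∈ Finset.Icc 1 ⌊x⌋₊, w1 n - Real.log x| ≤ C)
    (y : ℝ) (hy : 2 ≤ y) (F : Finset ℕ) (hF : ∀ p ∈ F, p.Prime ∧ y < (p : ℝ)) :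
    ∑ p ∈ F, (p : ℝ) ^ (-(1 + 1 / Real.log y)) ≤
      (1 + (2 * C + Real.log 2) / Real.log 2) * 2 := by
  classical
  have hl2 : 0 < Real.log 2 := Real.log_pos (by norm_num)
  have hL2 : Real.log 2 ≤ Real.log y := Real.log_le_log (by norm_num) hy
  have hL : 0 < Real.log y := lt_of_lt_of_le hl2 hL2
  have hy0 : 0 < y := by linarith
  have hK : 0 ≤ 1 + (2 * C + Real.log 2) / Real.log 2 := by positivity
  set g : ℕ → ℕ := fun p => ⌊Real.log p / Real.log y⌋₊ with hg
  rw [← Finset.sum_fiberwise_of_maps_to (s := F) (t := F.image g) (g := g)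
    (fun p hp => Finset.mem_image_of_mem g hp)]
  calc ∑ m ∈ F.image g, ∑ p ∈ F.filter (fun p => g p = m), (p : ℝ) ^ (-(1 + 1 / Real.log y)) ≤
        ∑ m ∈ F.image g, (1 + (2 * C + Real.log 2) / Real.log 2) * (1 / 2 : ℝ) ^ m := by
        apply Finset.sum_le_sum
        intro m hm
        obtain ⟨q, hq, hqm⟩ := Finset.mem_image.1 hm
        have hm1 : 1 ≤ m := by
          rw [← hqm, hg]
          have h1 := (hF q hq).2
          have h2 : Real.log y < Real.log q := Real.log_lt_log hy0 h1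
          have h3 : (1 : ℝ) ≤ Real.log q / Real.log y := by
            rw [le_div_iff₀ hL]; linarith
          exact Nat.one_le_floor_iff _ |>.mpr h3
        apply block_bound C hC0 hC y hy m hm1
        intro p hp
        rw [Finset.mem_filter] at hp
        have h1 := hF p hp.1
        have h4 : 0 ≤ Real.log p / Real.log y :=
          div_nonneg (Real.log_nonneg (by exact_mod_cast h1.1.one_lt.le)) hL.le
        refine ⟨h1.1, ?_, ?_⟩
        · have h5 := Nat.floor_le h4
          rw [← hp.2, hg]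
          exact (le_div_iff₀ hL).1 h5
        · have h5 := Nat.lt_floor_add_one (Real.log p / Real.log y)
          rw [← hp.2, hg]
          exact (div_lt_iff₀ hL).1 h5
    _ = (1 + (2 * C + Real.log 2) / Real.log 2) * ∑ m ∈ F.image g, (1 / 2 : ℝ) ^ m := by
        rw [Finset.mul_sum]
    _ ≤ (1 + (2 * C + Real.log 2) / Real.log 2) * 2 := by
        apply mul_le_mul_of_nonneg_left _ hK
        exact (Summable.sum_le_tsum (F.image g) (fun i _ => by positivity)
          summable_geometric_two).trans tsum_geometric_two.le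

lemma norm_neg_log_sub_le {x : ℂ} (hx : ‖x‖ ≤ 1 / 2) :
    ‖-Complex.log (1 - x) - x‖ ≤ ‖x‖ ^ 2 := by
  have h1 : ‖-x‖ < 1 := by rw [norm_neg]; linarith
  have h2 := Complex.norm_log_one_add_sub_self_le h1
  rw [norm_neg] at h2
  have h3 : -Complex.log (1 - x) - x = -(Complex.log (1 + -x) - -x) := by
    rw [← sub_eq_add_neg]; ring
  rw [h3, norm_neg]
  refine h2.trans ?_
  have h4 : (1 - ‖x‖)⁻¹ ≤ 2 := by
    rw [inv_le_comm₀ (by linarith) (by norm_num)]
    linarith
  nlinarith [sq_nonneg ‖x‖]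

theorem lzp : LzpStatement := by
  classical
  obtain ⟨C, hC0, hC, -, -⟩ := L.H61.mer
  have hl2 : 0 < Real.log 2 := Real.log_pos (by norm_num)
  set C1 : ℝ := ∑' n : ℕ, 1 / (n : ℝ) ^ 2 with hC1
  have hs1 : Summable (fun n : ℕ => 1 / (n : ℝ) ^ 2) :=
    Real.summable_one_div_nat_pow.2 (by norm_num)
  have hC10 : 0 ≤ C1 := tsum_nonneg (fun n => by positivity)
  set K : ℝ := (1 + (2 * C + Real.log 2) / Real.log 2) * 2 with hK
  have hK0 : 0 ≤ K := by positivity
  refine ⟨C1 + (1 + C / Real.log 2) + K + 1, by positivity, ?_⟩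
  intro y z hy hz0 hz1
  have hL2 : Real.log 2 ≤ Real.log y := Real.log_le_log (by norm_num) hy
  have hL : 0 < Real.log y := lt_of_lt_of_le hl2 hL2
  have hy0 : 0 < y := by linarith
  set s : ℂ := 1 + (1 / Real.log y : ℝ) + z with hs
  have hsre : s.re = 1 + 1 / Real.log y + z.re := by
    rw [hs]; simp
  have hd : 0 < 1 / Real.log y := by positivity
  have hs1' : 1 < s.re := by rw [hsre]; linarith
  -- the functions
  set T : ℕ → ℂ := fun n => if n.Prime then -Complex.log (1 - (n : ℂ) ^ (-s)) else 0 with hT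
  set t : ℕ → ℂ := fun n => if n ∈ prs 1 y then (n : ℂ) ^ (-(1 + z)) else 0 with ht
  set b1 : ℕ → ℝ := fun n => 1 / (n : ℝ) ^ 2 with hb1
  set b2 : ℕ → ℝ := fun n => if n ∈ prs 1 y then w1 n / Real.log y else 0 with hb2
  set b3 : ℕ → ℝ := fun n => if n.Prime ∧ y < (n : ℝ) then
    (n : ℝ) ^ (-(1 + 1 / Real.log y)) else 0 with hb3
  have hb3n : ∀ n, 0 ≤ b3 n := by
    intro n; rw [hb3]; dsimp only
    split_ifs
    · positivity
    · exact le_rfl
  have hb3s : ∀ u : Finset ℕ, ∑ n ∈ u, b3 n ≤ K := by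
    intro u
    rw [hb3, ← Finset.sum_filter]
    apply tail_bound C hC0 hC y hy
    intro p hp
    exact (Finset.mem_filter.1 hp).2
  have hS3 : Summable b3 := summable_of_sum_le hb3n hb3s
  have hT3 : ∑' n, b3 n ≤ K := Real.tsum_le_of_sum_le hb3n hb3s
  have hS2 : Summable b2 := by
    apply summable_of_finite_support
    apply Set.Finite.subset (prs 1 y).finite_toSet
    intro n hn
    by_contra h
    apply hn
    rw [hb2]; dsimp only
    rw [if_neg (by exact_mod_cast h)]
  have hT2 : ∑' n, b2 n ≤ 1 + C / Real.log 2 := by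
    have h1 : ∑' n, b2 n = ∑ n ∈ prs 1 y, w1 n / Real.log y := by
      rw [tsum_eq_sum (s := prs 1 y)]
      · apply Finset.sum_congr rfl
        intro n hn
        rw [hb2]; dsimp only
        rw [if_pos hn]
      · intro n hn
        rw [hb2]; dsimp only
        rw [if_neg hn]
    rw [h1, ← Finset.sum_div]
    have h2 : ∑ n ∈ prs 1 y, w1 n ≤ ∑ n ∈ Finset.Icc 1 ⌊y⌋₊, w1 n :=
      Finset.sum_le_sum_of_subset_of_nonneg (Finset.filter_subset _ _) (fun i _ _ => w1_nonneg i)
    have h3 := (abs_le.1 (hC y (by linarith))).2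
    calc (∑ n ∈ prs 1 y, w1 n) / Real.log y ≤ (Real.log y + C) / Real.log y := by
          gcongr
          linarith
      _ = 1 + C / Real.log y := by field_simp
      _ ≤ 1 + C / Real.log 2 := by gcongr
  -- termwise bound
  have hterm : ∀ n, ‖T n - t n‖ ≤ b1 n + b2 n + b3 n := by
    intro n
    by_cases hn : n.Prime
    · have hn0 : (0 : ℝ) < n := by exact_mod_cast hn.pos
      have hn1 : (1 : ℝ) ≤ n := by exact_mod_cast hn.one_lt.le
      have hn2 : (2 : ℝ) ≤ n := by exact_mod_cast hn.two_le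
      have hlogn : 0 ≤ Real.log n := Real.log_nonneg hn1
      have hxn : ‖(n : ℂ) ^ (-s)‖ = (n : ℝ) ^ (-s.re) := by
        rw [Complex.norm_natCast_cpow_of_pos hn.pos, neg_re]
      have hxn1 : ‖(n : ℂ) ^ (-s)‖ ≤ (n : ℝ)⁻¹ := by
        rw [hxn, ← Real.rpow_neg_one]
        exact Real.rpow_le_rpow_of_exponent_le hn1 (by linarith)
      have hinv : (n : ℝ)⁻¹ ≤ 1 / 2 := by
        rw [one_div]; exact inv_anti₀ (by norm_num) hn2
      have h1 : ‖-Complex.log (1 - (n : ℂ) ^ (-s)) - (n : ℂ) ^ (-s)‖ ≤ b1 n := by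
        refine (norm_neg_log_sub_le (hxn1.trans hinv)).trans ?_
        rw [hb1]; dsimp only
        rw [one_div, ← inv_pow]
        exact pow_le_pow_left₀ (norm_nonneg _) hxn1 2
      have hTn : T n = -Complex.log (1 - (n : ℂ) ^ (-s)) := by
        rw [hT]; dsimp only; rw [if_pos hn]
      by_cases hny : (n : ℝ) ≤ y
      · have hmem : n ∈ prs 1 y := by
          rw [prs, Finset.mem_filter, Finset.mem_Icc]
          exact ⟨⟨hn.one_lt.le, Nat.le_floor hny⟩, hn, by linarith⟩
        have htn : t n = (n : ℂ) ^ (-(1 + z)) := by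
          rw [ht]; dsimp only; rw [if_pos hmem]
        have hb2n : b2 n = w1 n / Real.log y := by
          rw [hb2]; dsimp only; rw [if_pos hmem]
        have h2 : ‖(n : ℂ) ^ (-s) - (n : ℂ) ^ (-(1 + z))‖ ≤ b2 n := by
          have e1 : (n : ℂ) ^ (-s) = (n : ℂ) ^ (-(1 + z)) *
              (((n : ℝ) ^ (-(1 / Real.log y)) : ℝ) : ℂ) := by
            have hnc : (n : ℂ) ≠ 0 := by exact_mod_cast hn.pos.ne'
            rw [Complex.ofReal_cpow hn0.le, Complex.ofReal_natCast, ← Complex.cpow_add _ _ hnc]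
            congr 1
            rw [hs]; push_cast; ring
          have e2 : (n : ℂ) ^ (-s) - (n : ℂ) ^ (-(1 + z)) = (n : ℂ) ^ (-(1 + z)) *
              (((n : ℝ) ^ (-(1 / Real.log y)) - 1 : ℝ) : ℂ) := by
            rw [e1]; push_cast; ring
          rw [e2, norm_mul, Complex.norm_real, Complex.norm_natCast_cpow_of_pos hn.pos, hb2n,
            w1_prime hn]
          have e3 : (n : ℝ) ^ (-(1 + z)).re ≤ (n : ℝ)⁻¹ := by
            rw [← Real.rpow_neg_one]
            apply Real.rpow_le_rpow_of_exponent_le hn1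
            simp; linarith
          have e4 : |(n : ℝ) ^ (-(1 / Real.log y)) - 1| ≤ Real.log n / Real.log y := by
            rw [Real.rpow_def_of_pos hn0]
            have h5 : Real.log n * -(1 / Real.log y) = -(Real.log n / Real.log y) := by ring
            rw [h5]
            have h6 : 0 ≤ Real.log n / Real.log y := by positivity
            have h7 := Real.add_one_le_exp (-(Real.log n / Real.log y))
            have h8 : Real.exp (-(Real.log n / Real.log y)) ≤ 1 :=
              Real.exp_le_one_iff.2 (by linarith)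
            rw [abs_le]
            constructor <;> linarith
          calc (n : ℝ) ^ (-(1 + z)).re * ‖(n : ℝ) ^ (-(1 / Real.log y)) - 1‖ ≤
                (n : ℝ)⁻¹ * (Real.log n / Real.log y) :=
                mul_le_mul e3 e4 (norm_nonneg _) (by positivity)
            _ = Real.log n / n / Real.log y := by
                field_simp
        rw [hTn, htn]
        calc ‖-Complex.log (1 - (n : ℂ) ^ (-s)) - (n : ℂ) ^ (-(1 + z))‖ =
              ‖(-Complex.log (1 - (n : ℂ) ^ (-s)) - (n : ℂ) ^ (-s)) +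
                ((n : ℂ) ^ (-s) - (n : ℂ) ^ (-(1 + z)))‖ := by congr 1; ring
          _ ≤ b1 n + b2 n := norm_add_le_of_le h1 h2
          _ ≤ b1 n + b2 n + b3 n := by linarith [hb3n n]
      · push Not at hny
        have hmem : n ∉ prs 1 y := by
          rw [prs, Finset.mem_filter, Finset.mem_Icc]
          rintro ⟨⟨-, h5⟩, -⟩
          have : (n : ℝ) ≤ y := (Nat.cast_le.2 h5).trans (Nat.floor_le hy0.le)
          linarith
        have htn : t n = 0 := by
          rw [ht]; dsimp only; rw [if_neg hmem]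
        have hb2n : b2 n = 0 := by
          rw [hb2]; dsimp only; rw [if_neg hmem]
        have hb3n' : b3 n = (n : ℝ) ^ (-(1 + 1 / Real.log y)) := by
          rw [hb3]; dsimp only; rw [if_pos ⟨hn, hny⟩]
        have h2 : ‖(n : ℂ) ^ (-s)‖ ≤ b3 n := by
          rw [hxn, hb3n']
          exact Real.rpow_le_rpow_of_exponent_le hn1 (by rw [hsre]; linarith)
        rw [hTn, htn, hb2n, sub_zero, add_zero]
        calc ‖-Complex.log (1 - (n : ℂ) ^ (-s))‖ =
              ‖(-Complex.log (1 - (n : ℂ) ^ (-s)) - (n : ℂ) ^ (-s)) + (n : ℂ) ^ (-s)‖ := by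
              congr 1; ring
          _ ≤ b1 n + b3 n := norm_add_le_of_le h1 h2
    · have hTn : T n = 0 := by rw [hT]; dsimp only; rw [if_neg hn]
      have hmem : n ∉ prs 1 y := by
        rw [prs, Finset.mem_filter]
        exact fun h => hn h.2.1
      have htn : t n = 0 := by
        rw [ht]; dsimp only; rw [if_neg hmem]
      have hb2n : b2 n = 0 := by
        rw [hb2]; dsimp only; rw [if_neg hmem]
      rw [hTn, htn, sub_zero, norm_zero, hb2n]
      have : 0 ≤ b1 n := by rw [hb1]; positivity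
      linarith [hb3n n]
  have hSb : Summable (fun n => b1 n + b2 n + b3 n) := (hs1.add hS2).add hS3
  have hSd : Summable (fun n => T n - t n) := Summable.of_norm_bounded hSb hterm
  have hSt : Summable t := by
    apply summable_of_finite_support
    apply Set.Finite.subset (prs 1 y).finite_toSet
    intro n hn
    by_contra h
    apply hn
    rw [ht]; dsimp only
    rw [if_neg (by exact_mod_cast h)]
  have hST : Summable T := by
    have := hSd.add hSt
    simpa using this
  have htt : ∑' n, t n = ∑ p ∈ prs 1 y, (p : ℂ) ^ (-(1 + z)) := by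
    rw [tsum_eq_sum (s := prs 1 y)]
    · apply Finset.sum_congr rfl
      intro n hn
      rw [ht]; dsimp only
      rw [if_pos hn]
    · intro n hn
      rw [ht]; dsimp only
      rw [if_neg hn]
  have hTT : ∑' p : Nat.Primes, -Complex.log (1 - (p : ℂ) ^ (-s)) = ∑' n, T n := by
    have h1 : ∑' p : Nat.Primes, -Complex.log (1 - (p : ℂ) ^ (-s)) =
        ∑' p : ({p : ℕ | p.Prime} : Set ℕ), -Complex.log (1 - ((p : ℕ) : ℂ) ^ (-s)) := rfl
    rw [h1, tsum_subtype {p : ℕ | p.Prime} (fun n : ℕ => -Complex.log (1 - (n : ℂ) ^ (-s)))]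
    apply tsum_congr
    intro n
    rw [hT]
    simp only [Set.indicator, Set.mem_setOf_eq]
  have hlog : Real.log ‖riemannZeta s‖ = (∑' n, T n).re := by
    rw [← riemannZeta_eulerProduct_exp_log hs1', hTT, Complex.norm_exp, Real.log_exp]
  rw [hlog, ← htt, ← Complex.sub_re, ← hSt.tsum_sub hST]
  have hfin : ‖∑' n, (T n - t n)‖ ≤ C1 + (1 + C / Real.log 2) + K := by
    calc ‖∑' n, (T n - t n)‖ ≤ ∑' n, (b1 n + b2 n + b3 n) :=
          tsum_of_norm_bounded hSb.hasSum hterm
      _ = ∑' n, b1 n + ∑' n, b2 n + ∑' n, b3 n := by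
          rw [(hs1.add hS2).tsum_add hS3, hs1.tsum_add hS2]
      _ ≤ _ := by
          have : ∑' n, b1 n = C1 := rfl
          linarith
  have hneg : ∑' n, (t n - T n) = -∑' n, (T n - t n) := by
    rw [← tsum_neg]
    apply tsum_congr
    intro n; ring
  calc |(∑' n, (t n - T n)).re| ≤ ‖∑' n, (t n - T n)‖ := Complex.abs_re_le_norm _
    _ = ‖∑' n, (T n - t n)‖ := by rw [hneg, norm_neg]
    _ ≤ _ := by linarith

end Pool.Agent.Lib.MP_6bc78b_nt.MS.QZ.H57
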